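import Mathlib
import Pool.Agent.Y854.GM.Win

/-!
# Sums of a nonnegative sequence over the windows `[α v_i - v_i ^ θ, α v_i + v_i ^ θ]`
-/

set_option autoImplicit false

namespace Pool.Agent.X35.ZW

open Finset

/-- sums over initial segments -/
theorem prefix_sum (a : ℕ → ℝ) (ha : ∀ n, 0 ≤ a n) (κ δ : ℝ) (hκ : 0 ≤ κ) (hδ : 0 < δ)
    (h : ∃ C : ℝ, ∀ N : ℕ, 1 ≤ N → ∑ m ∈ Ico N (2 * N), a m ≤ C * (N : ℝ) ^ (κ + δ)) :
    ∃ C : ℝ, 0 ≤ C ∧ ∀ k : ℕ, ∑ m ∈ range (2 ^ k), a m ≤ C * (2 : ℝ) ^ ((k : ℝ) * (κ + 2 * δ)) := by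
  obtain ⟨C₀, hC₀⟩ := h
  set C : ℝ := |C₀| with hCdef
  have hC : ∀ N : ℕ, 1 ≤ N → ∑ m ∈ Ico N (2 * N), a m ≤ C * (N : ℝ) ^ (κ + δ) := fun N hN =>
    (hC₀ N hN).trans (mul_le_mul_of_nonneg_right (le_abs_self _) (by positivity))
  have hC0 : 0 ≤ C := abs_nonneg _
  have h1 : ∀ k : ℕ, ∑ m ∈ range (2 ^ k), a m ≤ a 0 + k * (C * (2 : ℝ) ^ ((k : ℝ) * (κ + δ))) := by
    intro k
    induction k with
    | zero => simp
    | succ k ih =>
      have e1 : ∑ m ∈ range (2 ^ (k + 1)), a m = ∑ m ∈ range (2 ^ k), a m + ∑ m ∈ Ico (2 ^ k) (2 * 2 ^ k), a m := by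
        have e2 : 2 * 2 ^ k = 2 ^ (k + 1) := by ring
        rw [e2, sum_range_add_sum_Ico _ (Nat.pow_le_pow_right (by norm_num) (Nat.le_succ k))]
      have h2 := hC (2 ^ k) Nat.one_le_two_pow
      have e3 : (((2 ^ k : ℕ) : ℝ)) ^ (κ + δ) = (2 : ℝ) ^ ((k : ℝ) * (κ + δ)) := by
        push_cast
        rw [← Real.rpow_natCast, ← Real.rpow_mul (by norm_num)]
      rw [e3] at h2
      have h3 : (2 : ℝ) ^ ((k : ℝ) * (κ + δ)) ≤ (2 : ℝ) ^ (((k + 1 : ℕ) : ℝ) * (κ + δ)) := by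
        apply Real.rpow_le_rpow_of_exponent_le (by norm_num)
        push_cast
        nlinarith
      have h4 : C * (2 : ℝ) ^ ((k : ℝ) * (κ + δ)) ≤ C * (2 : ℝ) ^ (((k + 1 : ℕ) : ℝ) * (κ + δ)) := mul_le_mul_of_nonneg_left h3 hC0
      rw [e1]
      have h5 : (k : ℝ) * (C * (2 : ℝ) ^ ((k : ℝ) * (κ + δ))) ≤ k * (C * (2 : ℝ) ^ (((k + 1 : ℕ) : ℝ) * (κ + δ))) :=
        mul_le_mul_of_nonneg_left h4 (Nat.cast_nonneg k)
      have h6 : (((k + 1 : ℕ) : ℝ)) * (C * (2 : ℝ) ^ (((k + 1 : ℕ) : ℝ) * (κ + δ))) =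
          k * (C * (2 : ℝ) ^ (((k + 1 : ℕ) : ℝ) * (κ + δ))) + C * (2 : ℝ) ^ (((k + 1 : ℕ) : ℝ) * (κ + δ)) := by
        push_cast
        ring
      rw [h6]
      linarith
  have hl2 : 0 < Real.log 2 := Real.log_pos (by norm_num)
  refine ⟨a 0 + C / (δ * Real.log 2), by have := ha 0; positivity, fun k => ?_⟩
  have hk : (k : ℝ) ≤ (2 : ℝ) ^ ((k : ℝ) * δ) / (δ * Real.log 2) := by
    rw [le_div_iff₀ (by positivity), Real.rpow_def_of_pos (by norm_num)]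
    have := Real.add_one_le_exp (Real.log 2 * ((k : ℝ) * δ))
    nlinarith
  have h2 : (1 : ℝ) ≤ (2 : ℝ) ^ ((k : ℝ) * (κ + 2 * δ)) := Real.one_le_rpow (by norm_num) (by positivity)
  have h3 : (k : ℝ) * (C * (2 : ℝ) ^ ((k : ℝ) * (κ + δ))) ≤ C / (δ * Real.log 2) * (2 : ℝ) ^ ((k : ℝ) * (κ + 2 * δ)) := by
    have e : (2 : ℝ) ^ ((k : ℝ) * (κ + 2 * δ)) = (2 : ℝ) ^ ((k : ℝ) * δ) * (2 : ℝ) ^ ((k : ℝ) * (κ + δ)) := by
      rw [← Real.rpow_add (by norm_num)]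
      congr 1
      ring
    rw [e]
    have h4 : 0 ≤ C * (2 : ℝ) ^ ((k : ℝ) * (κ + δ)) := by positivity
    calc (k : ℝ) * (C * (2 : ℝ) ^ ((k : ℝ) * (κ + δ))) ≤ (2 : ℝ) ^ ((k : ℝ) * δ) / (δ * Real.log 2) * (C * (2 : ℝ) ^ ((k : ℝ) * (κ + δ))) :=
          mul_le_mul_of_nonneg_right hk h4
      _ = _ := by ring
  have h4 := h1 k
  have h5 := ha 0
  nlinarith

/-- **sums over windows**: if `∑_{N ≤ n < 2N} a(n) ≤ C N ^ (κ + ε)`, then outside a set of `α` of dimension at most `(κ - β + τ) / (1 - θ)` the sums over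
the windows around `α v_i` are at most `v_i ^ β` -/
theorem sum_windows (a : ℕ → ℝ) (ha : ∀ n, 0 ≤ a n) (κ β : ℝ) (hβ : 0 ≤ β) (hs : 0 ≤ κ - β)
    (h : ∀ ε : ℝ, 0 < ε → ∃ C : ℝ, ∀ N : ℕ, 1 ≤ N → ∑ m ∈ Ico N (2 * N), a m ≤ C * (N : ℝ) ^ (κ + ε))
    {v : ℕ → ℝ} {τ θ : ℝ} (hpos : ∀ n, 1 ≤ v n) (hτ : 0 ≤ τ) (hv : ∀ t : ℝ, τ < t → Summable (fun i => v i ^ (-t))) (hθ0 : 0 ≤ θ) (hθ : θ < 1) :
    ∃ E : Set ℝ, dimH E ≤ ENNReal.ofReal ((κ - β + τ) / (1 - θ)) ∧ ∀ α : ℝ, 0 < α → α ∉ E →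
      ∃ i₀ : ℕ, ∀ i : ℕ, i₀ ≤ i → ∀ F : Finset ℕ, (∀ n ∈ F, |(n : ℝ) - α * v i| ≤ v i ^ θ + 1) → ∑ n ∈ F, a n ≤ v i ^ β := by
  classical
  set L : ℕ → ℝ := fun j => (2 : ℝ) ^ ((j : ℝ) * θ) with hL
  have hL1 : ∀ j, 1 ≤ L j := fun j => Real.one_le_rpow (by norm_num) (by positivity)
  set hh : ℕ × ℕ → ℝ := fun t => (t.2 : ℝ) * L t.1 with hhh
  set S : ℕ → Set (ℕ × ℕ) := fun A => {t | (2 : ℝ) ^ t.1 ≤ A * hh t ∧ hh t ≤ A * 2 ^ (t.1 + 1) ∧
    ∃ F : Finset ℕ, (∀ n ∈ F, |(n : ℝ) - hh t| ≤ 4 * L t.1) ∧ (2 : ℝ) ^ ((t.1 : ℝ) * β) < ∑ n ∈ F, a n} with hS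
  have key : ∀ A : ℕ, ∃ E : Set ℝ, dimH E ≤ ENNReal.ofReal ((κ - β + τ) / (1 - θ)) ∧ ∀ α : ℝ, 0 < α → α ∉ E →
      ∃ n0 : ℕ, ∀ n : ℕ, n0 ≤ n → ∀ t ∈ S A, v n ^ θ < |hh t - α * v n| := by
    intro A
    refine Pool.Agent.Y854.GM.windows (S A) hh hpos hτ (show Pool.Agent.Y854.GM.ExpLe v τ from hv) hs hθ ?_
    intro ε hε
    set δ : ℝ := ε / 3 with hδ
    have hδ0 : 0 < δ := by positivity
    obtain ⟨C, hC0, hC⟩ := prefix_sum a ha κ δ (by linarith) hδ0 (h δ hδ0)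
    -- the number `kA` with `2 A + 6 ≤ 2 ^ kA`
    obtain ⟨kA, hkA⟩ : ∃ k : ℕ, 2 * A + 6 ≤ 2 ^ k := ⟨2 * A + 6, (Nat.lt_two_pow_self).le⟩
    -- one scale
    have hscale : ∀ (j : ℕ) (T : Finset ℕ), (∀ m ∈ T, (j, m) ∈ S A) →
        (T.card : ℝ) ≤ 9 * C * (2 : ℝ) ^ ((kA : ℝ) * (κ + 2 * δ)) * (2 : ℝ) ^ ((j : ℝ) * (κ - β + 2 * δ)) := by
      intro j T hT
      have hex : ∀ m ∈ T, ∃ F : Finset ℕ, (∀ n ∈ F, |(n : ℝ) - hh (j, m)| ≤ 4 * L j) ∧ (2 : ℝ) ^ ((j : ℝ) * β) < ∑ n ∈ F, a n :=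
        fun m hm => (hT m hm).2.2
      choose! F hF1 hF2 using hex
      -- all the integers are small
      have hLj : L j ≤ 2 ^ j := by
        rw [hL]
        simp only
        rw [← Real.rpow_natCast]
        apply Real.rpow_le_rpow_of_exponent_le (by norm_num)
        have : (0 : ℝ) ≤ j := Nat.cast_nonneg j
        nlinarith
      have hsmall : ∀ m ∈ T, F m ⊆ range (2 ^ (j + kA)) := by
        intro m hm n hn
        rw [mem_range]
        have h1 := (abs_le.1 (hF1 m hm n hn)).2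
        have h2 := (hT m hm).2.1
        have h3 : (n : ℝ) < 2 ^ (j + kA) := by
          have h4 : ((2 * A + 6 : ℕ) : ℝ) ≤ ((2 ^ kA : ℕ) : ℝ) := by exact_mod_cast hkA
          push_cast at h4
          have h5 : (0 : ℝ) < 2 ^ j := by positivity
          have h2' : hh (j, m) ≤ A * (2 * 2 ^ j) := by
            have := h2
            simp only at this
            rwa [pow_succ, mul_comm ((2 : ℝ) ^ j) 2] at this
          calc (n : ℝ) ≤ hh (j, m) + 4 * L j := by linarith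
            _ ≤ A * (2 * 2 ^ j) + 4 * 2 ^ j := by linarith
            _ < (2 * A + 6) * 2 ^ j := by nlinarith
            _ ≤ 2 ^ kA * 2 ^ j := mul_le_mul_of_nonneg_right h4 h5.le
            _ = 2 ^ (j + kA) := by rw [pow_add]; ring
        exact_mod_cast h3
      have h1 : (T.card : ℝ) * (2 : ℝ) ^ ((j : ℝ) * β) ≤ ∑ m ∈ T, ∑ n ∈ F m, a n := by
        rw [← nsmul_eq_mul]
        exact card_nsmul_le_sum _ _ _ fun m hm => (hF2 m hm).le
      have h2 : ∑ m ∈ T, ∑ n ∈ F m, a n ≤ 9 * ∑ n ∈ range (2 ^ (j + kA)), a n := by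
        have e1 : ∑ m ∈ T, ∑ n ∈ F m, a n = ∑ m ∈ T, ∑ n ∈ range (2 ^ (j + kA)), if n ∈ F m then a n else 0 := by
          apply sum_congr rfl
          intro m hm
          rw [← sum_filter]
          apply sum_congr _ fun _ _ => rfl
          ext n
          rw [mem_filter]
          exact ⟨fun h => ⟨hsmall m hm h, h⟩, fun h => h.2⟩
        rw [e1, sum_comm, mul_sum]
        apply sum_le_sum
        intro n _
        rw [← sum_filter, sum_const, nsmul_eq_mul]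
        apply mul_le_mul_of_nonneg_right _ (ha n)
        -- at most nine windows contain `n`
        have h3 : T.filter (fun m => n ∈ F m) ⊆ Icc (⌈(n : ℝ) / L j - 4⌉₊) (⌈(n : ℝ) / L j - 4⌉₊ + 8) := by
          intro m hm
          rw [mem_filter] at hm
          have h4 := abs_le.1 (hF1 m hm.1 n hm.2)
          have hLj0 : 0 < L j := by linarith [hL1 j]
          have h5 : hh (j, m) = m * L j := rfl
          rw [h5] at h4
          have h6 : (n : ℝ) / L j - 4 ≤ m := by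
            rw [sub_le_iff_le_add, div_le_iff₀ hLj0]
            nlinarith [h4.2]
          have h7 : (m : ℝ) ≤ (n : ℝ) / L j + 4 := by
            rw [← sub_le_iff_le_add, le_div_iff₀ hLj0]
            nlinarith [h4.1]
          rw [mem_Icc]
          refine ⟨Nat.ceil_le.2 h6, ?_⟩
          have h8 : (n : ℝ) / L j - 4 ≤ ⌈(n : ℝ) / L j - 4⌉₊ := Nat.le_ceil _
          have h9 : (m : ℝ) ≤ ((⌈(n : ℝ) / L j - 4⌉₊ + 8 : ℕ) : ℝ) := by
            push_cast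
            linarith
          exact_mod_cast h9
        have h4 := card_le_card h3
        rw [Nat.card_Icc] at h4
        have h5 : (T.filter (fun m => n ∈ F m)).card ≤ 9 := by omega
        exact_mod_cast h5
      have h3 := hC (j + kA)
      have h4 : (T.card : ℝ) * (2 : ℝ) ^ ((j : ℝ) * β) ≤ 9 * (C * (2 : ℝ) ^ (((j + kA : ℕ) : ℝ) * (κ + 2 * δ))) := by
        refine h1.trans (h2.trans ?_)
        exact mul_le_mul_of_nonneg_left h3 (by norm_num)
      have h5 : (0 : ℝ) < (2 : ℝ) ^ ((j : ℝ) * β) := by positivity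
      have h6 : 9 * (C * (2 : ℝ) ^ (((j + kA : ℕ) : ℝ) * (κ + 2 * δ))) =
          9 * C * (2 : ℝ) ^ ((kA : ℝ) * (κ + 2 * δ)) * (2 : ℝ) ^ ((j : ℝ) * (κ - β + 2 * δ)) * (2 : ℝ) ^ ((j : ℝ) * β) := by
        have e : (2 : ℝ) ^ (((j + kA : ℕ) : ℝ) * (κ + 2 * δ)) = (2 : ℝ) ^ ((kA : ℝ) * (κ + 2 * δ)) * (2 : ℝ) ^ ((j : ℝ) * (κ - β + 2 * δ)) * (2 : ℝ) ^ ((j : ℝ) * β) := by
          rw [← Real.rpow_add (by norm_num), ← Real.rpow_add (by norm_num)]
          congr 1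
          push_cast
          ring
        rw [e]
        ring
      rw [h6] at h4
      exact le_of_mul_le_mul_right h4 h5
    set s' : ℝ := κ - β + 2 * δ with hs'
    have hs'0 : 0 < s' := by linarith
    set D : ℝ := 9 * C * (2 : ℝ) ^ ((kA : ℝ) * (κ + 2 * δ)) with hD
    have hD0 : 0 ≤ D := by positivity
    have hl2 : 0 < Real.log 2 := Real.log_pos (by norm_num)
    refine ⟨D * ((1 + 1 / (δ * Real.log 2)) * ((A : ℝ) + 1) ^ (s' + δ)), fun X hX => ?_⟩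
    -- the largest scale
    set J : ℕ := Nat.log 2 ⌊((A : ℝ) + 1) * X⌋₊ with hJ
    have hAX : 1 ≤ ((A : ℝ) + 1) * X := by
      have : (0 : ℝ) ≤ A := Nat.cast_nonneg A
      nlinarith
    have hfl : ⌊((A : ℝ) + 1) * X⌋₊ ≠ 0 := by
      have : 1 ≤ ⌊((A : ℝ) + 1) * X⌋₊ := Nat.le_floor (by exact_mod_cast hAX)
      omega
    have hJ1 : (2 : ℝ) ^ J ≤ ((A : ℝ) + 1) * X := by
      have h1 : 2 ^ J ≤ ⌊((A : ℝ) + 1) * X⌋₊ := Nat.pow_log_le_self 2 hfl
      have h2 : ((2 ^ J : ℕ) : ℝ) ≤ ((A : ℝ) + 1) * X := (Nat.cast_le.2 h1).trans (Nat.floor_le (by linarith))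
      exact_mod_cast h2
    set W : Finset (ℕ × ℕ) := ((range (J + 1)) ×ˢ (range (⌊X⌋₊ + 1))).filter (fun t => t ∈ S A) with hW
    have hsub : {t | t ∈ S A ∧ hh t ≤ X} ⊆ (W : Set (ℕ × ℕ)) := by
      rintro ⟨j, m⟩ ⟨h1, h2⟩
      rw [mem_coe, hW, mem_filter, mem_product, mem_range, mem_range]
      refine ⟨⟨?_, ?_⟩, h1⟩
      · have h3 : (2 : ℝ) ^ j ≤ ((A : ℝ) + 1) * X := by
          have h4 := h1.1
          simp only at h4
          have h5 : (A : ℝ) * hh (j, m) ≤ A * X := mul_le_mul_of_nonneg_left h2 (Nat.cast_nonneg A)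
          nlinarith
        have h4 : 2 ^ j ≤ ⌊((A : ℝ) + 1) * X⌋₊ := Nat.le_floor (by exact_mod_cast h3)
        have h5 := (Nat.le_log_iff_pow_le (by norm_num) hfl).2 h4
        simp only
        omega
      · have h3 : (m : ℝ) ≤ X := by
          have h4 : hh (j, m) = m * L j := rfl
          rw [h4] at h2
          have h5 := hL1 j
          have h6 : (0 : ℝ) ≤ m := Nat.cast_nonneg m
          nlinarith
        have h4 : m ≤ ⌊X⌋₊ := Nat.le_floor h3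
        simp only
        omega
    refine ⟨(finite_toSet W).subset hsub, ?_⟩
    have h1 : ({t | t ∈ S A ∧ hh t ≤ X}.ncard : ℝ) ≤ (W.card : ℝ) := by
      have h2 := Set.ncard_le_ncard hsub (finite_toSet W)
      rw [Set.ncard_coe_finset] at h2
      exact_mod_cast h2
    have h2 : W.card = ∑ j ∈ range (J + 1), ((range (⌊X⌋₊ + 1)).filter (fun m => (j, m) ∈ S A)).card := by
      rw [hW, card_filter, sum_product]
      apply sum_congr rfl
      intro j _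
      rw [card_filter]
    have h3 : (W.card : ℝ) ≤ ∑ j ∈ range (J + 1), D * (2 : ℝ) ^ ((J : ℝ) * s') := by
      rw [h2]
      push_cast
      apply sum_le_sum
      intro j hj
      have h4 := hscale j ((range (⌊X⌋₊ + 1)).filter (fun m => (j, m) ∈ S A)) (fun m hm => (mem_filter.1 hm).2)
      refine h4.trans ?_
      apply mul_le_mul_of_nonneg_left _ hD0
      apply Real.rpow_le_rpow_of_exponent_le (by norm_num)
      have h5 : (j : ℝ) ≤ J := by exact_mod_cast Nat.lt_succ_iff.1 (mem_range.1 hj)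
      exact mul_le_mul_of_nonneg_right h5 hs'0.le
    rw [sum_const, card_range, nsmul_eq_mul] at h3
    have hJ2 : ((J + 1 : ℕ) : ℝ) ≤ (1 + 1 / (δ * Real.log 2)) * (2 : ℝ) ^ ((J : ℝ) * δ) := by
      have h4 : (1 : ℝ) ≤ (2 : ℝ) ^ ((J : ℝ) * δ) := Real.one_le_rpow (by norm_num) (by positivity)
      have h5 : (J : ℝ) ≤ 1 / (δ * Real.log 2) * (2 : ℝ) ^ ((J : ℝ) * δ) := by
        rw [one_div, inv_mul_eq_div, le_div_iff₀ (by positivity), Real.rpow_def_of_pos (by norm_num)]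
        have := Real.add_one_le_exp (Real.log 2 * ((J : ℝ) * δ))
        nlinarith
      push_cast
      nlinarith
    have h4 : (2 : ℝ) ^ ((J : ℝ) * δ) * (2 : ℝ) ^ ((J : ℝ) * s') ≤ ((A : ℝ) + 1) ^ (s' + δ) * X ^ (s' + δ) := by
      rw [← Real.rpow_add (by norm_num), ← Real.mul_rpow (by positivity) (by linarith)]
      have e : (2 : ℝ) ^ ((J : ℝ) * δ + (J : ℝ) * s') = ((2 : ℝ) ^ J) ^ (s' + δ) := by
        rw [← Real.rpow_natCast 2 J, ← Real.rpow_mul (by norm_num)]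
        congr 1
        ring
      rw [e]
      exact Real.rpow_le_rpow (by positivity) hJ1 (by linarith)
    have e5 : s' + δ = κ - β + ε := by rw [hs', hδ]; ring
    calc ({t | t ∈ S A ∧ hh t ≤ X}.ncard : ℝ) ≤ ((J + 1 : ℕ) : ℝ) * (D * (2 : ℝ) ^ ((J : ℝ) * s')) := h1.trans h3
      _ ≤ ((1 + 1 / (δ * Real.log 2)) * (2 : ℝ) ^ ((J : ℝ) * δ)) * (D * (2 : ℝ) ^ ((J : ℝ) * s')) := mul_le_mul_of_nonneg_right hJ2 (by positivity)
      _ = D * (1 + 1 / (δ * Real.log 2)) * ((2 : ℝ) ^ ((J : ℝ) * δ) * (2 : ℝ) ^ ((J : ℝ) * s')) := by ring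
      _ ≤ D * (1 + 1 / (δ * Real.log 2)) * (((A : ℝ) + 1) ^ (s' + δ) * X ^ (s' + δ)) := mul_le_mul_of_nonneg_left h4 (by positivity)
      _ = D * ((1 + 1 / (δ * Real.log 2)) * ((A : ℝ) + 1) ^ (s' + δ)) * X ^ (κ - β + ε) := by
          rw [e5]
          ring
  choose E hE1 hE2 using key
  refine ⟨⋃ A, E A, ?_, fun α hα hαE => ?_⟩
  · rw [dimH_iUnion]
    exact iSup_le hE1
  · have hαE' : ∀ A, α ∉ E A := fun A h => hαE (Set.mem_iUnion.2 ⟨A, h⟩)
    obtain ⟨A, hA⟩ := exists_nat_gt (max α (2 / α))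
    have hA1 : α < A := (le_max_left _ _).trans_lt hA
    have hA2 : 2 / α < A := (le_max_right _ _).trans_lt hA
    obtain ⟨n0, hn0⟩ := hE2 A α hα (hαE' A)
    -- `v_i → ∞`
    have htend := Pool.Agent.Y854.GM.tendsto_of_expLe (fun n => lt_of_lt_of_le one_pos (hpos n)) hτ (show Pool.Agent.Y854.GM.ExpLe v τ from hv)
    have h1θ : 0 < 1 - θ := by linarith
    set Y : ℝ := 2 * (2 / α) ^ (1 / (1 - θ)) with hY
    obtain ⟨n1, hn1⟩ := Filter.eventually_atTop.1 (htend.eventually_ge_atTop Y)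
    refine ⟨max n0 n1, fun i hi F hF => ?_⟩
    have hvi := hpos i
    have hviY := hn1 i (le_trans (le_max_right _ _) hi)
    -- the scale
    set j : ℕ := Nat.log 2 ⌊v i⌋₊ with hj
    have hfl : ⌊v i⌋₊ ≠ 0 := by
      have : 1 ≤ ⌊v i⌋₊ := Nat.le_floor (by exact_mod_cast hvi)
      omega
    have hj1 : (2 : ℝ) ^ j ≤ v i := by
      have h1 : 2 ^ j ≤ ⌊v i⌋₊ := Nat.pow_log_le_self 2 hfl
      have h2 : ((2 ^ j : ℕ) : ℝ) ≤ v i := (Nat.cast_le.2 h1).trans (Nat.floor_le (by linarith))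
      exact_mod_cast h2
    have hj2 : v i < (2 : ℝ) ^ (j + 1) := by
      have h1 : ⌊v i⌋₊ < 2 ^ (j + 1) := Nat.lt_pow_succ_log_self (by norm_num) _
      have h2 : ((⌊v i⌋₊ + 1 : ℕ) : ℝ) ≤ ((2 ^ (j + 1) : ℕ) : ℝ) := by exact_mod_cast h1
      have h3 := Nat.lt_floor_add_one (v i)
      push_cast at h2
      linarith
    have h2j : (0 : ℝ) < 2 ^ j := by positivity
    have hLv : L j ≤ v i ^ θ := by
      rw [hL]
      simp only
      rw [Real.rpow_mul (by norm_num), Real.rpow_natCast]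
      exact Real.rpow_le_rpow (by positivity) hj1 hθ0
    have hLv2 : v i ^ θ ≤ 2 * L j := by
      have h1 : v i ^ θ ≤ ((2 : ℝ) ^ (j + 1)) ^ θ := Real.rpow_le_rpow (by linarith) hj2.le hθ0
      have h2 : ((2 : ℝ) ^ (j + 1)) ^ θ = 2 ^ θ * L j := by
        rw [hL]
        simp only
        rw [pow_succ, Real.mul_rpow (by positivity) (by norm_num), ← Real.rpow_natCast 2 j, ← Real.rpow_mul (by norm_num)]
        ring
      have h3 : (2 : ℝ) ^ θ ≤ 2 := by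
        calc (2 : ℝ) ^ θ ≤ 2 ^ (1 : ℝ) := Real.rpow_le_rpow_of_exponent_le (by norm_num) hθ.le
          _ = 2 := Real.rpow_one 2
      rw [h2] at h1
      have h4 : 0 ≤ L j := by linarith [hL1 j]
      nlinarith
    have hLα : L j ≤ α / 2 * 2 ^ j := by
      -- `2 ^ (j (1 - θ)) ≥ 2 / α`
      have h1 : (2 / α) ^ (1 / (1 - θ)) ≤ 2 ^ j := by
        have h2 : Y < 2 ^ (j + 1) := lt_of_le_of_lt hviY hj2
        rw [hY, pow_succ] at h2
        linarith
      have h2 : 2 / α ≤ ((2 : ℝ) ^ j) ^ (1 - θ) := by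
        have h3 := Real.rpow_le_rpow (by positivity) h1 h1θ.le
        rwa [← Real.rpow_mul (by positivity), one_div, inv_mul_cancel₀ h1θ.ne', Real.rpow_one] at h3
      have h3 : L j * ((2 : ℝ) ^ j) ^ (1 - θ) = 2 ^ j := by
        rw [hL]
        simp only
        rw [← Real.rpow_natCast 2 j, ← Real.rpow_mul (by norm_num), ← Real.rpow_add (by norm_num)]
        congr 1
        ring
      have h4 : 0 < L j := by linarith [hL1 j]
      have h5 : L j * (2 / α) ≤ 2 ^ j := by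
        calc L j * (2 / α) ≤ L j * ((2 : ℝ) ^ j) ^ (1 - θ) := mul_le_mul_of_nonneg_left h2 h4.le
          _ = 2 ^ j := h3
      have h6 : L j = L j * (2 / α) * (α / 2) := by field_simp
      rw [h6]
      have h7 : 0 < α / 2 := by positivity
      nlinarith
    -- the window
    have hLj0 : 0 < L j := by linarith [hL1 j]
    set m : ℕ := ⌊α * v i / L j⌋₊ with hm
    have hm1 : (m : ℝ) * L j ≤ α * v i := by
      have := Nat.floor_le (show 0 ≤ α * v i / L j by positivity)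
      rwa [le_div_iff₀ hLj0] at this
    have hm2 : α * v i < (m : ℝ) * L j + L j := by
      have := Nat.lt_floor_add_one (α * v i / L j)
      rw [div_lt_iff₀ hLj0] at this
      nlinarith
    have hhm : hh (j, m) = (m : ℝ) * L j := rfl
    have hnot : (j, m) ∉ S A := by
      intro hmem
      have h1 := hn0 i (le_trans (le_max_left _ _) hi) (j, m) hmem
      rw [hhm] at h1
      have h2 : |(m : ℝ) * L j - α * v i| ≤ L j := by
        rw [abs_le]
        constructor <;> linarith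
      linarith
    by_contra hcon
    push Not at hcon
    apply hnot
    refine ⟨?_, ?_, F, ?_, ?_⟩
    · show (2 : ℝ) ^ j ≤ A * hh (j, m)
      rw [hhm]
      have h1 : α * 2 ^ j ≤ α * v i := mul_le_mul_of_nonneg_left hj1 hα.le
      have h2 : α / 2 * 2 ^ j ≤ (m : ℝ) * L j := by
        have : α / 2 * 2 ^ j = α * 2 ^ j - α / 2 * 2 ^ j := by ring
        linarith
      have h3 : 1 ≤ A * (α / 2) := by
        rw [div_lt_iff₀ hα] at hA2
        linarith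
      have h4 : (0 : ℝ) ≤ A := Nat.cast_nonneg A
      calc (2 : ℝ) ^ j ≤ A * (α / 2) * 2 ^ j := by nlinarith
        _ = A * (α / 2 * 2 ^ j) := by ring
        _ ≤ A * ((m : ℝ) * L j) := mul_le_mul_of_nonneg_left h2 h4
    · show hh (j, m) ≤ A * 2 ^ (j + 1)
      rw [hhm]
      calc (m : ℝ) * L j ≤ α * v i := hm1
        _ ≤ A * 2 ^ (j + 1) := mul_le_mul hA1.le hj2.le (by linarith) (Nat.cast_nonneg A)
    · intro n hn
      show |(n : ℝ) - hh (j, m)| ≤ 4 * L j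
      rw [hhm]
      have h1 := abs_le.1 (hF n hn)
      have h2 := hL1 j
      rw [abs_le]
      constructor <;> linarith
    · show (2 : ℝ) ^ ((j : ℝ) * β) < ∑ n ∈ F, a n
      refine lt_of_le_of_lt ?_ hcon
      rw [Real.rpow_mul (by norm_num), Real.rpow_natCast]
      exact Real.rpow_le_rpow (by positivity) hj1 hβ

end Pool.Agent.X35.ZW
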