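import Mathlib
import Pool.Agent.X35.ZW.Sums

/-!
# The number of the elements of a set whose height lies in the window `[α v_i - v_i ^ θ, α v_i + v_i ^ θ]`
-/

set_option autoImplicit false

namespace Pool.Agent.X35.ZW

open Finset

/-- **counting in windows**: if `S` has `O(X ^ (κ + ε))` elements of height at most `X`, then outside a set of `α` of dimension at most
`(κ - β + τ) / (1 - θ)` there are at most `v_i ^ β` elements with height in the windows around `α v_i` -/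
theorem count_windows {T : Type*} (S : Set T) (h : T → ℝ) (κ β : ℝ) (hβ : 0 ≤ β) (hs : 0 ≤ κ - β)
    (hcnt : ∀ ε : ℝ, 0 < ε → ∃ C : ℝ, ∀ X : ℝ, 1 ≤ X → {t | t ∈ S ∧ h t ≤ X}.Finite ∧ ({t | t ∈ S ∧ h t ≤ X}.ncard : ℝ) ≤ C * X ^ (κ + ε))
    {v : ℕ → ℝ} {τ θ : ℝ} (hpos : ∀ n, 1 ≤ v n) (hτ : 0 ≤ τ) (hv : ∀ t : ℝ, τ < t → Summable (fun i => v i ^ (-t))) (hθ0 : 0 ≤ θ) (hθ : θ < 1) :
    ∃ E : Set ℝ, dimH E ≤ ENNReal.ofReal ((κ - β + τ) / (1 - θ)) ∧ ∀ α : ℝ, 0 < α → α ∉ E →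
      ∃ i₀ : ℕ, ∀ i : ℕ, i₀ ≤ i → {t | t ∈ S ∧ |h t - α * v i| ≤ v i ^ θ}.Finite ∧
        ({t | t ∈ S ∧ |h t - α * v i| ≤ v i ^ θ}.ncard : ℝ) ≤ v i ^ β := by
  classical
  have hfin : ∀ X : ℝ, {t | t ∈ S ∧ h t ≤ X}.Finite := by
    intro X
    obtain ⟨C, hC⟩ := hcnt 1 one_pos
    refine ((hC (max X 1) (le_max_right _ _)).1).subset ?_
    rintro t ⟨h1, h2⟩
    exact ⟨h1, h2.trans (le_max_left _ _)⟩
  -- the number of elements in `[n, n + 1)`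
  set a : ℕ → ℝ := fun n => ({t | t ∈ S ∧ 0 ≤ h t ∧ ⌊h t⌋₊ = n}.ncard : ℝ) with ha
  have hfin2 : ∀ n : ℕ, {t | t ∈ S ∧ 0 ≤ h t ∧ ⌊h t⌋₊ = n}.Finite := by
    intro n
    refine (hfin (n + 1)).subset ?_
    rintro t ⟨h1, h2, h3⟩
    refine ⟨h1, ?_⟩
    have := Nat.lt_floor_add_one (h t)
    rw [h3] at this
    exact this.le
  have hunion : ∀ F : Finset ℕ, {t | t ∈ S ∧ 0 ≤ h t ∧ ⌊h t⌋₊ ∈ F}.Finite ∧ ({t | t ∈ S ∧ 0 ≤ h t ∧ ⌊h t⌋₊ ∈ F}.ncard : ℝ) = ∑ n ∈ F, a n := by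
    intro F
    induction F using Finset.induction_on with
    | empty => simp
    | insert n F hn ih =>
      have e : {t | t ∈ S ∧ 0 ≤ h t ∧ ⌊h t⌋₊ ∈ insert n F} = {t | t ∈ S ∧ 0 ≤ h t ∧ ⌊h t⌋₊ = n} ∪ {t | t ∈ S ∧ 0 ≤ h t ∧ ⌊h t⌋₊ ∈ F} := by
        ext t
        simp only [Set.mem_setOf_eq, Set.mem_union, Finset.mem_insert]
        tauto
      have hdisj : Disjoint {t | t ∈ S ∧ 0 ≤ h t ∧ ⌊h t⌋₊ = n} {t | t ∈ S ∧ 0 ≤ h t ∧ ⌊h t⌋₊ ∈ F} := by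
        rw [Set.disjoint_left]
        rintro t ⟨_, _, h3⟩ ⟨_, _, h6⟩
        rw [h3] at h6
        exact hn h6
      rw [e]
      refine ⟨(hfin2 n).union ih.1, ?_⟩
      rw [Set.ncard_union_eq hdisj (hfin2 n) ih.1, sum_insert hn]
      push_cast
      rw [ih.2]
  have hdy : ∀ ε : ℝ, 0 < ε → ∃ C : ℝ, ∀ N : ℕ, 1 ≤ N → ∑ m ∈ Ico N (2 * N), a m ≤ C * (N : ℝ) ^ (κ + ε) := by
    intro ε hε
    obtain ⟨C, hC⟩ := hcnt ε hε
    refine ⟨|C| * 2 ^ (κ + ε), fun N hN => ?_⟩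
    have hN1 : (1 : ℝ) ≤ N := by exact_mod_cast hN
    obtain ⟨h1, h2⟩ := hC (2 * N) (by linarith)
    rw [← (hunion (Ico N (2 * N))).2]
    have hsub : {t | t ∈ S ∧ 0 ≤ h t ∧ ⌊h t⌋₊ ∈ Ico N (2 * N)} ⊆ {t | t ∈ S ∧ h t ≤ 2 * N} := by
      rintro t ⟨h3, h4, h5⟩
      refine ⟨h3, ?_⟩
      have h6 := Nat.lt_floor_add_one (h t)
      have h7 : ⌊h t⌋₊ + 1 ≤ 2 * N := by
        have := (mem_Ico.1 h5).2
        omega
      have h8 : ((⌊h t⌋₊ + 1 : ℕ) : ℝ) ≤ ((2 * N : ℕ) : ℝ) := by exact_mod_cast h7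
      push_cast at h8
      linarith
    have h3 : ({t | t ∈ S ∧ 0 ≤ h t ∧ ⌊h t⌋₊ ∈ Ico N (2 * N)}.ncard : ℝ) ≤ ({t | t ∈ S ∧ h t ≤ 2 * N}.ncard : ℝ) := by
      exact_mod_cast Set.ncard_le_ncard hsub h1
    refine h3.trans (h2.trans ?_)
    rw [Real.mul_rpow (by norm_num) (by linarith)]
    calc C * (2 ^ (κ + ε) * (N : ℝ) ^ (κ + ε)) ≤ |C| * (2 ^ (κ + ε) * (N : ℝ) ^ (κ + ε)) :=
          mul_le_mul_of_nonneg_right (le_abs_self C) (by positivity)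
      _ = |C| * 2 ^ (κ + ε) * (N : ℝ) ^ (κ + ε) := by ring
  obtain ⟨E, hE, hw⟩ := sum_windows a (fun n => by positivity) κ β hβ hs hdy hpos hτ hv hθ0 hθ
  refine ⟨E, hE, fun α hα hαE => ?_⟩
  obtain ⟨i₀, hi₀⟩ := hw α hα hαE
  have htend := Pool.Agent.Y854.GM.tendsto_of_expLe (fun n => lt_of_lt_of_le one_pos (hpos n)) hτ (show Pool.Agent.Y854.GM.ExpLe v τ from hv)
  have h1θ : 0 < 1 - θ := by linarith
  obtain ⟨i₁, hi₁⟩ := Filter.eventually_atTop.1 (htend.eventually_ge_atTop ((1 / α) ^ (1 / (1 - θ))))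
  refine ⟨max i₀ i₁, fun i hi => ?_⟩
  have hvi := hpos i
  have hvi0 : 0 < v i := by linarith
  have hvθ : 1 ≤ v i ^ θ := Real.one_le_rpow hvi hθ0
  have hx0 : 0 ≤ α * v i - v i ^ θ := by
    have h1 := hi₁ i (le_trans (le_max_right _ _) hi)
    have h2 : 1 / α ≤ v i ^ (1 - θ) := by
      have h3 := Real.rpow_le_rpow (by positivity) h1 h1θ.le
      rwa [← Real.rpow_mul (by positivity), one_div (1 - θ), inv_mul_cancel₀ h1θ.ne', Real.rpow_one] at h3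
    have h3 : v i ^ (1 - θ) * v i ^ θ = v i := by
      rw [← Real.rpow_add hvi0]
      simp
    have h4 : 1 / α * v i ^ θ ≤ v i := by
      calc 1 / α * v i ^ θ ≤ v i ^ (1 - θ) * v i ^ θ := mul_le_mul_of_nonneg_right h2 (by positivity)
        _ = v i := h3
    rw [div_mul_eq_mul_div, one_mul, div_le_iff₀ hα] at h4
    linarith
  -- the integers of the window
  set F : Finset ℕ := (Icc ⌊α * v i - v i ^ θ⌋₊ ⌊α * v i + v i ^ θ⌋₊) with hF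
  have hsub : {t | t ∈ S ∧ |h t - α * v i| ≤ v i ^ θ} ⊆ {t | t ∈ S ∧ 0 ≤ h t ∧ ⌊h t⌋₊ ∈ F} := by
    rintro t ⟨h1, h2⟩
    have h3 := abs_le.1 h2
    refine ⟨h1, by linarith, ?_⟩
    rw [hF, mem_Icc]
    exact ⟨Nat.floor_le_floor (by linarith), Nat.floor_le_floor (by linarith)⟩
  have h1 := hi₀ i (le_trans (le_max_left _ _) hi) F (by
    intro n hn
    rw [hF, mem_Icc] at hn
    have h3 : ((⌊α * v i - v i ^ θ⌋₊ : ℕ) : ℝ) ≤ n := by exact_mod_cast hn.1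
    have h4 : (n : ℝ) ≤ ((⌊α * v i + v i ^ θ⌋₊ : ℕ) : ℝ) := by exact_mod_cast hn.2
    have h5 := Nat.lt_floor_add_one (α * v i - v i ^ θ)
    have h6 := Nat.floor_le (show 0 ≤ α * v i + v i ^ θ by linarith)
    rw [abs_le]
    constructor <;> linarith)
  refine ⟨(hunion F).1.subset hsub, ?_⟩
  have h2 : ({t | t ∈ S ∧ |h t - α * v i| ≤ v i ^ θ}.ncard : ℝ) ≤ ({t | t ∈ S ∧ 0 ≤ h t ∧ ⌊h t⌋₊ ∈ F}.ncard : ℝ) := by
    exact_mod_cast Set.ncard_le_ncard hsub (hunion F).1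
  rw [(hunion F).2] at h2
  exact h2.trans h1

end Pool.Agent.X35.ZW
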