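import Mathlib
import Pool.Agent.Y854.GM.Win

/-!
# Windows of heights without zeros
-/

set_option autoImplicit false

namespace Pool.Agent.X35.ZW

open Complex Set

/-- the order of a zero of the zeta function is at least one -/
theorem order_pos {ρ : ℂ} (h : riemannZeta ρ = 0) : 1 ≤ analyticOrderNatAt riemannZeta ρ := by
  have hρ1 : ρ ≠ 1 := by
    rintro rfl
    exact riemannZeta_ne_zero_of_one_le_re (le_of_eq (by simp)) h
  have han : AnalyticOnNhd ℂ riemannZeta {1}ᶜ := by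
    apply DifferentiableOn.analyticOnNhd _ isOpen_compl_singleton
    intro s hs
    exact (differentiableAt_riemannZeta hs).differentiableWithinAt
  have hconn : IsPreconnected ({1}ᶜ : Set ℂ) := by
    apply (isConnected_compl_singleton_of_one_lt_rank _ _).isPreconnected
    rw [Complex.rank_real_complex]
    norm_num
  have h2 : riemannZeta 2 ≠ 0 := riemannZeta_ne_zero_of_one_le_re (by norm_num)
  have h21 : (2 : ℂ) ∈ ({1}ᶜ : Set ℂ) := by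
    simp
  have htop2 : analyticOrderAt riemannZeta 2 ≠ ⊤ := by
    rw [(han 2 h21).analyticOrderAt_eq_zero.2 h2]
    simp
  have htop : analyticOrderAt riemannZeta ρ ≠ ⊤ :=
    AnalyticOnNhd.analyticOrderAt_ne_top_of_isPreconnected han hconn h21 (by simpa using hρ1) htop2
  have hne : analyticOrderAt riemannZeta ρ ≠ 0 := by
    rw [Ne, (han ρ hρ1).analyticOrderAt_eq_zero]
    simpa using h
  unfold analyticOrderNatAt
  rw [Nat.one_le_iff_ne_zero]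
  intro h0
  rw [ENat.toNat_eq_zero] at h0
  rcases h0 with h0 | h0
  · exact hne h0
  · exact htop h0

/-- the number of the points of a finite set of zeros -/
theorem ncard_le {S : Set ℂ} (hS : S.Finite) (hz : ∀ ρ ∈ S, riemannZeta ρ = 0) :
    (S.ncard : ℝ) ≤ ∑ᶠ ρ ∈ S, (analyticOrderNatAt riemannZeta ρ : ℝ) := by
  rw [finsum_mem_eq_finite_toFinset_sum _ hS, Set.ncard_eq_toFinset_card S hS, ← nsmul_one]
  refine Finset.card_nsmul_le_sum _ _ _ fun ρ hρ => ?_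
  exact_mod_cast order_pos (hz ρ (hS.mem_toFinset.1 hρ))

/-- **windows without zeros**: if the number of the elements of `Z` with imaginary part in `(0, T]` is `O(T ^ (a + ε))` -/
theorem zero_windows (Z : Set ℂ) (hZ : ∀ ρ ∈ Z, 0 < ρ.im) {v : ℕ → ℝ} {a τ θ : ℝ} (hpos : ∀ n, 1 ≤ v n) (hτ : 0 ≤ τ)
    (hv : ∀ t : ℝ, τ < t → Summable (fun i => v i ^ (-t))) (ha : 0 ≤ a) (hθ : θ < 1)
    (h : ∀ ε : ℝ, 0 < ε → ∃ C T₀ : ℝ, ∀ T : ℝ, T₀ ≤ T → {ρ | ρ ∈ Z ∧ ρ.im ≤ T}.Finite ∧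
      ({ρ | ρ ∈ Z ∧ ρ.im ≤ T}.ncard : ℝ) ≤ C * T ^ (a + ε)) :
    ∃ E : Set ℝ, dimH E ≤ ENNReal.ofReal ((a + τ) / (1 - θ)) ∧ ∀ α : ℝ, 0 < α → α ∉ E →
      ∃ i₀ : ℕ, ∀ i : ℕ, i₀ ≤ i → ∀ ρ ∈ Z, v i ^ θ < |ρ.im - α * v i| := by
  refine Pool.Agent.Y854.GM.windows Z (fun ρ => ρ.im) hpos hτ (show Pool.Agent.Y854.GM.ExpLe v τ from hv) ha hθ ?_
  intro ε hε
  obtain ⟨C, T₀, hC⟩ := h ε hε
  set T₁ : ℝ := max T₀ 1 with hT₁
  have hT₁1 : 1 ≤ T₁ := le_max_right _ _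
  refine ⟨|C| * T₁ ^ (a + ε), fun X hX => ?_⟩
  have hX1 : 1 ≤ X * T₁ := by nlinarith
  have hge : T₀ ≤ X * T₁ := le_trans (le_max_left _ _) (by rw [← hT₁]; nlinarith)
  obtain ⟨h1, h2⟩ := hC (X * T₁) hge
  have hsub : {ρ | ρ ∈ Z ∧ ρ.im ≤ X} ⊆ {ρ | ρ ∈ Z ∧ ρ.im ≤ X * T₁} := by
    rintro ρ ⟨h3, h4⟩
    refine ⟨h3, h4.trans ?_⟩
    nlinarith
  refine ⟨h1.subset hsub, ?_⟩
  have h3 : ({ρ | ρ ∈ Z ∧ ρ.im ≤ X}.ncard : ℝ) ≤ ({ρ | ρ ∈ Z ∧ ρ.im ≤ X * T₁}.ncard : ℝ) := by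
    exact_mod_cast Set.ncard_le_ncard hsub h1
  refine h3.trans (h2.trans ?_)
  rw [Real.mul_rpow (by linarith) (by linarith)]
  have h4 : 0 ≤ X ^ (a + ε) * T₁ ^ (a + ε) := by positivity
  calc C * (X ^ (a + ε) * T₁ ^ (a + ε)) ≤ |C| * (X ^ (a + ε) * T₁ ^ (a + ε)) := mul_le_mul_of_nonneg_right (le_abs_self C) h4
    _ = |C| * T₁ ^ (a + ε) * X ^ (a + ε) := by ring

end Pool.Agent.X35.ZW
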