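import Mathlib
import Pool.Agent.X35.ZW.Sums

/-!
# Sums of weights of the elements of a set whose height lies in the window `[α v_i - v_i ^ θ, α v_i + v_i ^ θ]`
-/

set_option autoImplicit false

namespace Pool.Agent.X35.ZW

open Finset

/-- **weights in windows**: if the sum of the weights of the elements of `S` of height at most `X` is `O(X ^ (κ + ε))`, then outside a set
of `α` of dimension at most `(κ - β + τ) / (1 - θ)` the sum of the weights over the windows around `α v_i` is at most `v_i ^ β` -/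
theorem weight_windows {T : Type*} (S : Set T) (h : T → ℝ) (w : T → ℝ) (hw : ∀ t ∈ S, 0 ≤ w t) (κ β : ℝ) (hβ : 0 ≤ β) (hs : 0 ≤ κ - β)
    (hfin : ∀ X : ℝ, {t | t ∈ S ∧ h t ≤ X}.Finite)
    (hcnt : ∀ ε : ℝ, 0 < ε → ∃ C : ℝ, ∀ X : ℝ, 1 ≤ X → ∑ t ∈ (hfin X).toFinset, w t ≤ C * X ^ (κ + ε))
    {v : ℕ → ℝ} {τ θ : ℝ} (hpos : ∀ n, 1 ≤ v n) (hτ : 0 ≤ τ) (hv : ∀ t : ℝ, τ < t → Summable (fun i => v i ^ (-t))) (hθ0 : 0 ≤ θ) (hθ : θ < 1) :
    ∃ E : Set ℝ, dimH E ≤ ENNReal.ofReal ((κ - β + τ) / (1 - θ)) ∧ ∀ α : ℝ, 0 < α → α ∉ E →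
      ∃ i₀ : ℕ, ∀ i : ℕ, i₀ ≤ i → ∀ F : Finset T, (∀ t ∈ F, t ∈ S ∧ |h t - α * v i| ≤ v i ^ θ) → ∑ t ∈ F, w t ≤ v i ^ β := by
  classical
  set a : ℕ → ℝ := fun n => ∑ t ∈ (hfin (n + 1)).toFinset.filter (fun t => 0 ≤ h t ∧ ⌊h t⌋₊ = n), w t with ha
  have ha0 : ∀ n, 0 ≤ a n := by
    intro n
    apply sum_nonneg
    intro t ht
    rw [mem_filter, Set.Finite.mem_toFinset] at ht
    exact hw t ht.1.1
  have hsum : ∀ (F : Finset ℕ) (M : ℕ), (∀ n ∈ F, n + 1 ≤ M) →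
      ∑ n ∈ F, a n = ∑ t ∈ (hfin M).toFinset.filter (fun t => 0 ≤ h t ∧ ⌊h t⌋₊ ∈ F), w t := by
    intro F M hM
    rw [← sum_fiberwise_of_maps_to (s := (hfin M).toFinset.filter (fun t => 0 ≤ h t ∧ ⌊h t⌋₊ ∈ F)) (t := F) (g := fun t => ⌊h t⌋₊)
      (fun t ht => (mem_filter.1 ht).2.2)]
    apply sum_congr rfl
    intro n hn
    rw [ha]
    simp only
    congr 1
    ext t
    simp only [mem_filter, Set.Finite.mem_toFinset, Set.mem_setOf_eq]
    constructor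
    · rintro ⟨⟨h1, h2⟩, h3, h4⟩
      refine ⟨⟨⟨h1, h2.trans ?_⟩, h3, ?_⟩, h4⟩
      · have := hM n hn
        exact_mod_cast this
      · rw [h4]
        exact hn
    · rintro ⟨⟨⟨h1, h2⟩, h3, h4⟩, h5⟩
      refine ⟨⟨h1, ?_⟩, h3, h5⟩
      have := Nat.lt_floor_add_one (h t)
      rw [h5] at this
      exact this.le
  have hdy : ∀ ε : ℝ, 0 < ε → ∃ C : ℝ, ∀ N : ℕ, 1 ≤ N → ∑ m ∈ Ico N (2 * N), a m ≤ C * (N : ℝ) ^ (κ + ε) := by
    intro ε hε
    obtain ⟨C, hC⟩ := hcnt ε hε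
    refine ⟨|C| * 2 ^ (κ + ε), fun N hN => ?_⟩
    have hN1 : (1 : ℝ) ≤ N := by exact_mod_cast hN
    have h2 := hC ((2 * N : ℕ) : ℝ) (by push_cast; linarith)
    rw [hsum (Ico N (2 * N)) (2 * N) (fun n hn => by
      have := (mem_Ico.1 hn).2
      omega)]
    refine le_trans (sum_le_sum_of_subset_of_nonneg (filter_subset _ _) fun t ht _ => ?_) (h2.trans ?_)
    · rw [Set.Finite.mem_toFinset] at ht
      exact hw t ht.1
    · push_cast
      rw [Real.mul_rpow (by norm_num) (by linarith)]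
      calc C * (2 ^ (κ + ε) * (N : ℝ) ^ (κ + ε)) ≤ |C| * (2 ^ (κ + ε) * (N : ℝ) ^ (κ + ε)) :=
            mul_le_mul_of_nonneg_right (le_abs_self C) (by positivity)
        _ = |C| * 2 ^ (κ + ε) * (N : ℝ) ^ (κ + ε) := by ring
  obtain ⟨E, hE, hwin⟩ := sum_windows a ha0 κ β hβ hs hdy hpos hτ hv hθ0 hθ
  refine ⟨E, hE, fun α hα hαE => ?_⟩
  obtain ⟨i₀, hi₀⟩ := hwin α hα hαE
  have htend := Pool.Agent.Y854.GM.tendsto_of_expLe (fun n => lt_of_lt_of_le one_pos (hpos n)) hτ (show Pool.Agent.Y854.GM.ExpLe v τ from hv)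
  have h1θ : 0 < 1 - θ := by linarith
  obtain ⟨i₁, hi₁⟩ := Filter.eventually_atTop.1 (htend.eventually_ge_atTop ((1 / α) ^ (1 / (1 - θ))))
  refine ⟨max i₀ i₁, fun i hi G hG => ?_⟩
  have hvi := hpos i
  have hvi0 : 0 < v i := by linarith
  have hvθ : 1 ≤ v i ^ θ := Real.one_le_rpow hvi hθ0
  have hx0 : 0 ≤ α * v i - v i ^ θ := by
    have h1 := hi₁ i (le_trans (le_max_right _ _) hi)
    have h2 : 1 / α ≤ v i ^ (1 - θ) := by
      have h3 := Real.rpow_le_rpow (by positivity) h1 h1θ.le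
      rwa [← Real.rpow_mul (by positivity), one_div (1 - θ), inv_mul_cancel₀ h1θ.ne', Real.rpow_one] at h3
    have h3 : v i ^ (1 - θ) * v i ^ θ = v i := by
      rw [← Real.rpow_add hvi0]
      simp
    have h4 : 1 / α * v i ^ θ ≤ v i := by
      calc 1 / α * v i ^ θ ≤ v i ^ (1 - θ) * v i ^ θ := mul_le_mul_of_nonneg_right h2 (by positivity)
        _ = v i := h3
    rw [div_mul_eq_mul_div, one_mul, div_le_iff₀ hα] at h4
    linarith
  -- the integers of the window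
  set F : Finset ℕ := (Icc ⌊α * v i - v i ^ θ⌋₊ ⌊α * v i + v i ^ θ⌋₊) with hF
  have h1 := hi₀ i (le_trans (le_max_left _ _) hi) F (by
    intro n hn
    rw [hF, mem_Icc] at hn
    have h3 : ((⌊α * v i - v i ^ θ⌋₊ : ℕ) : ℝ) ≤ n := by exact_mod_cast hn.1
    have h4 : (n : ℝ) ≤ ((⌊α * v i + v i ^ θ⌋₊ : ℕ) : ℝ) := by exact_mod_cast hn.2
    have h5 := Nat.lt_floor_add_one (α * v i - v i ^ θ)
    have h6 := Nat.floor_le (show 0 ≤ α * v i + v i ^ θ by linarith)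
    rw [abs_le]
    constructor <;> linarith)
  refine le_trans ?_ h1
  rw [hsum F (⌊α * v i + v i ^ θ⌋₊ + 1) (fun n hn => by
    have := (mem_Icc.1 hn).2
    omega)]
  apply sum_le_sum_of_subset_of_nonneg
  · intro t ht
    obtain ⟨h2, h3⟩ := hG t ht
    have h4 := abs_le.1 h3
    rw [mem_filter, Set.Finite.mem_toFinset]
    refine ⟨⟨h2, ?_⟩, by linarith, ?_⟩
    · have h6 := Nat.lt_floor_add_one (α * v i + v i ^ θ)
      push_cast
      linarith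
    · rw [hF, mem_Icc]
      exact ⟨Nat.floor_le_floor (by linarith), Nat.floor_le_floor (by linarith)⟩
  · intro t ht _
    rw [mem_filter, Set.Finite.mem_toFinset] at ht
    exact hw t ht.1.1

end Pool.Agent.X35.ZW
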