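import Mathlib
import Pool.Agent.Y854.GM.Win

/-!
# Counting large terms of a sequence with bounded moments
-/

set_option autoImplicit false

namespace Pool.Agent.X35.ZW

open Finset

open Classical in
/-- if `∑_{N ≤ m < 2N} g(m) ^ q ≤ C N ^ (κ + ε)`, then `g(m) ≤ (m / 2) ^ η` for all but `O(X ^ (κ - q η + δ))` integers `m ≤ X` -/
theorem dyadic_card (g : ℕ → ℝ) (q κ η : ℝ) (hq : 0 < q) (hη : 0 ≤ η) (hs : 0 ≤ κ - q * η)
    (h : ∀ ε : ℝ, 0 < ε → ∃ C : ℝ, ∀ N : ℕ, 1 ≤ N → ∑ m ∈ Ico N (2 * N), g m ^ q ≤ C * (N : ℝ) ^ (κ + ε)) (hg : ∀ m, 0 ≤ g m)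
    (δ : ℝ) (hδ : 0 < δ) :
    ∃ K : ℝ, ∀ X : ℕ, 1 ≤ X →
      (((Ioc 0 X).filter (fun m => m ∈ {m : ℕ | ((m : ℝ) / 2) ^ η < g m})).card : ℝ) ≤ K * (X : ℝ) ^ (κ - q * η + δ) := by
  obtain ⟨C₀, hC₀⟩ := h δ hδ
  set C : ℝ := |C₀| with hCdef
  have hC : ∀ N : ℕ, 1 ≤ N → ∑ m ∈ Ico N (2 * N), g m ^ q ≤ C * (N : ℝ) ^ (κ + δ) := fun N hN =>
    (hC₀ N hN).trans (mul_le_mul_of_nonneg_right (le_abs_self _) (by positivity))
  have hC0 : 0 ≤ C := abs_nonneg _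
  set P : Set ℕ := {m : ℕ | ((m : ℝ) / 2) ^ η < g m} with hP
  set s : ℝ := κ - q * η + δ with hsdef
  have hs0 : 0 < s := by linarith
  set A : ℝ := C * 2 ^ (q * η) with hA
  have hA0 : 0 ≤ A := by positivity
  have h2s : (1 : ℝ) < 2 ^ s := Real.one_lt_rpow (by norm_num) hs0
  set K : ℝ := A / (1 - (2 ^ s)⁻¹) + 1 with hK
  have hpos : 0 < 1 - ((2 : ℝ) ^ s)⁻¹ := by
    rw [sub_pos]
    exact inv_lt_one_of_one_lt₀ h2s
  have hK0 : 0 ≤ K := by positivity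
  have hKA : A ≤ K * (1 - ((2 : ℝ) ^ s)⁻¹) := by
    rw [hK, add_mul, div_mul_cancel₀ _ hpos.ne']
    nlinarith
  refine ⟨K, ?_⟩
  intro X
  induction X using Nat.strong_induction_on with
  | _ X ih =>
    intro hX
    have hX0 : (0 : ℝ) < X := by exact_mod_cast hX
    -- the upper half
    have hup : (((Ioc (X / 2) X).filter (fun n => n ∈ P)).card : ℝ) ≤ A * (X : ℝ) ^ s := by
      set N : ℕ := X / 2 + 1 with hN
      have hN1 : 1 ≤ N := by omega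
      have hNX : N ≤ X := by omega
      have hN0 : (0 : ℝ) < N := by exact_mod_cast hN1
      have h1 : ∑ n ∈ (Ioc (X / 2) X).filter (fun n => n ∈ P), (((N : ℝ) / 2) ^ η) ^ q ≤ ∑ m ∈ Ico N (2 * N), g m ^ q := by
        refine le_trans (sum_le_sum (g := fun n => g n ^ q) fun n hn => ?_) (sum_le_sum_of_subset_of_nonneg (fun n hn => ?_) fun n _ _ => Real.rpow_nonneg (hg n) _)
        · rw [mem_filter, mem_Ioc] at hn
          have h2 : (N : ℝ) ≤ n := by exact_mod_cast (show N ≤ n by omega)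
          have h5 : ((N : ℝ) / 2) ^ η ≤ g n :=
            le_trans (Real.rpow_le_rpow (by positivity) (by linarith) hη) (le_of_lt hn.2)
          exact Real.rpow_le_rpow (by positivity) h5 hq.le
        · rw [mem_filter, mem_Ioc] at hn
          rw [mem_Ico]
          omega
      rw [sum_const, nsmul_eq_mul] at h1
      have h2 := h1.trans (hC N hN1)
      have h3 : (((N : ℝ) / 2) ^ η) ^ q = (N : ℝ) ^ (q * η) / 2 ^ (q * η) := by
        rw [← Real.rpow_mul (by positivity), Real.div_rpow hN0.le (by norm_num), mul_comm η q]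
      have h4 : 0 < (N : ℝ) ^ (q * η) / 2 ^ (q * η) := by positivity
      rw [h3] at h2
      have h5 : (((Ioc (X / 2) X).filter (fun n => n ∈ P)).card : ℝ) ≤ C * (N : ℝ) ^ (κ + δ) / ((N : ℝ) ^ (q * η) / 2 ^ (q * η)) := by
        rwa [le_div_iff₀ h4]
      have h6 : C * (N : ℝ) ^ (κ + δ) / ((N : ℝ) ^ (q * η) / 2 ^ (q * η)) = A * (N : ℝ) ^ s := by
        have e : s = κ + δ - q * η := by rw [hsdef]; ring
        rw [e, Real.rpow_sub hN0, hA]
        field_simp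
      rw [h6] at h5
      refine h5.trans (mul_le_mul_of_nonneg_left ?_ hA0)
      exact Real.rpow_le_rpow hN0.le (by exact_mod_cast hNX) hs0.le
    -- the lower half
    have hlow : (((Ioc 0 (X / 2)).filter (fun n => n ∈ P)).card : ℝ) ≤ K * ((X : ℝ) ^ s * (2 ^ s)⁻¹) := by
      rcases Nat.eq_zero_or_pos (X / 2) with h0 | h0
      · rw [h0]
        simp only [Ioc_self, filter_empty, card_empty, Nat.cast_zero]
        positivity
      · have h1 := ih (X / 2) (by omega) h0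
        refine h1.trans (mul_le_mul_of_nonneg_left ?_ hK0)
        have h2 : ((X / 2 : ℕ) : ℝ) ≤ (X : ℝ) / 2 := Nat.cast_div_le
        refine (Real.rpow_le_rpow (Nat.cast_nonneg _) h2 hs0.le).trans (le_of_eq ?_)
        rw [Real.div_rpow hX0.le (by norm_num)]
        rfl
    have hsplit : ((Ioc 0 X).filter (fun n => n ∈ P)).card ≤ ((Ioc 0 (X / 2)).filter (fun n => n ∈ P)).card + ((Ioc (X / 2) X).filter (fun n => n ∈ P)).card := by
      refine le_trans (card_le_card ?_) (card_union_le _ _)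
      intro n hn
      rw [mem_filter, mem_Ioc] at hn
      rw [mem_union, mem_filter, mem_filter, mem_Ioc, mem_Ioc]
      by_cases h1 : n ≤ X / 2
      · exact Or.inl ⟨⟨hn.1.1, h1⟩, hn.2⟩
      · exact Or.inr ⟨⟨by omega, hn.1.2⟩, hn.2⟩
    have hsplit' : (((Ioc 0 X).filter (fun n => n ∈ P)).card : ℝ) ≤
        (((Ioc 0 (X / 2)).filter (fun n => n ∈ P)).card : ℝ) + (((Ioc (X / 2) X).filter (fun n => n ∈ P)).card : ℝ) := by exact_mod_cast hsplit
    have hXs : 0 < (X : ℝ) ^ s := Real.rpow_pos_of_pos hX0 _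
    have h9 : A * (X : ℝ) ^ s ≤ K * (1 - ((2 : ℝ) ^ s)⁻¹) * (X : ℝ) ^ s := mul_le_mul_of_nonneg_right hKA hXs.le
    nlinarith

/-- **windows for local maxima**: if the numbers `g(m) ≥ |f(x)|` for `|x - m| ≤ 1` have bounded moments of order `q`, then `|f(t)| ≤ t ^ η` for
all real `t` near `α v_i` -/
theorem max_windows (f : ℝ → ℝ) (g : ℕ → ℝ) (hfg : ∀ (m : ℕ) (x : ℝ), |x - m| ≤ 1 → f x ≤ g m) (hg : ∀ m, 0 ≤ g m) (q κ η : ℝ) (hq : 0 < q)
    (hη : 0 ≤ η) (hs : 0 ≤ κ - q * η)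
    (h : ∀ ε : ℝ, 0 < ε → ∃ C : ℝ, ∀ N : ℕ, 1 ≤ N → ∑ m ∈ Ico N (2 * N), g m ^ q ≤ C * (N : ℝ) ^ (κ + ε))
    {v : ℕ → ℝ} {τ θ : ℝ} (hpos : ∀ n, 1 ≤ v n) (hτ : 0 ≤ τ) (hv : ∀ t : ℝ, τ < t → Summable (fun i => v i ^ (-t))) (hθ0 : 0 ≤ θ) (hθ : θ < 1) :
    ∃ E : Set ℝ, dimH E ≤ ENNReal.ofReal ((κ - q * η + τ) / (1 - θ)) ∧ ∀ α : ℝ, 0 < α → α ∉ E →
      ∃ i₀ : ℕ, ∀ i : ℕ, i₀ ≤ i → ∀ t : ℝ, |t - α * v i| ≤ v i ^ θ → 1 ≤ t → f t ≤ t ^ η := by
  classical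
  obtain ⟨E, hE1, hE2⟩ := Pool.Agent.Y854.GM.win_nat {m : ℕ | ((m : ℝ) / 2) ^ η < g m} hpos hτ
    (show Pool.Agent.Y854.GM.ExpLe v τ from hv) hs hθ (fun δ hδ => dyadic_card g q κ η hq hη hs h hg δ hδ)
  refine ⟨E, hE1, fun α hα hαE => ?_⟩
  obtain ⟨i₀, hi₀⟩ := hE2 α hα hαE
  refine ⟨i₀, fun i hi t ht ht1 => ?_⟩
  have hvi : 1 ≤ v i ^ θ := Real.one_le_rpow (hpos i) hθ0
  -- the integer next to `t` on the side of `α v_i`
  obtain ⟨m, hm1, hm2⟩ : ∃ m : ℕ, |t - m| ≤ 1 ∧ |(m : ℝ) - α * v i| ≤ v i ^ θ := by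
    rw [abs_le] at ht
    rcases le_total (α * v i) t with h1 | h1
    · refine ⟨⌊t⌋₊, ?_, ?_⟩
      · rw [abs_le]
        have h2 := Nat.floor_le (show 0 ≤ t by linarith)
        have h3 := Nat.lt_floor_add_one t
        constructor <;> linarith
      · rw [abs_le]
        have h2 := Nat.floor_le (show 0 ≤ t by linarith)
        have h3 := Nat.lt_floor_add_one t
        constructor <;> linarith
    · refine ⟨⌈t⌉₊, ?_, ?_⟩
      · rw [abs_le]
        have h2 := Nat.le_ceil t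
        have h3 := Nat.ceil_lt_add_one (show 0 ≤ t by linarith)
        constructor <;> linarith
      · rw [abs_le]
        have h2 := Nat.le_ceil t
        have h3 := Nat.ceil_lt_add_one (show 0 ≤ t by linarith)
        constructor <;> linarith
  have h1 := (hi₀ i hi m hm2).2
  have h2 : g m ≤ ((m : ℝ) / 2) ^ η := not_lt.1 h1
  refine (hfg m t hm1).trans (h2.trans ?_)
  apply Real.rpow_le_rpow (by positivity) _ hη
  have := (abs_le.1 hm1).1
  linarith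

end Pool.Agent.X35.ZW
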