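import Pool.Agent.X114.TM5
import Pool.Agent.TH158.FM.Main
import Pool.Agent.X35.ZW.Dyad
import Pool.Agent.X35.ZW.Sums

/-!
# The zeta function on windows of heights around `α v_i`
-/

set_option autoImplicit false

namespace Pool.Agent.X35.ZW

open Finset Pool.Agent.X114.TM

/-- the fourth moment, up to `T ^ ε` -/
theorem moment4 : MomentBound 4 1 := by
  intro ε hε
  have hcont : Continuous fun x : ℝ => Z x ^ (4 : ℝ) := Zq_cont (by norm_num)
  refine ⟨4 / 5 * (4 / ε) ^ 4 * 1000 ^ (1 + ε), fun T hT => ?_⟩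
  set X : ℝ := max (2 * T) 1000 with hX
  have hX1 : 1000 ≤ X := le_max_right _ _
  have hX2 : 2 * T ≤ X := le_max_left _ _
  have hX3 : X ≤ 1000 * T := max_le (by linarith) (by linarith)
  have h1 : ∫ x in T..(2 * T), Z x ^ (4 : ℝ) ≤ ∫ x in (0 : ℝ)..X, Z x ^ (4 : ℝ) := by
    apply intervalIntegral.integral_mono_interval (by linarith) (by linarith) hX2
    · exact Filter.Eventually.of_forall fun x => Zq_nonneg 4 x
    · exact hcont.intervalIntegrable _ _
  have h2 : ∫ x in (0 : ℝ)..X, Z x ^ (4 : ℝ) ≤ 4 / 5 * (X * Real.log X ^ 4) := by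
    have h3 := Pool.Agent.TH158.FM.fourth_all X hX1
    refine le_trans (le_of_eq ?_) h3
    apply intervalIntegral.integral_congr
    intro x _
    simp only
    have e : (Pool.Agent.TH158.FM.pt (1 / 2) x) = 1 / 2 + (x : ℂ) * Complex.I := by
      unfold Pool.Agent.TH158.FM.pt
      push_cast
      ring
    rw [e]
    unfold Z
    rw [← Real.rpow_natCast]
    norm_num
  have h4 : Real.log X ^ 4 ≤ (4 / ε) ^ 4 * X ^ ε := by
    have hlog : 0 ≤ Real.log X := Real.log_nonneg (by linarith)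
    have h5 := Real.log_le_rpow_div (show 0 ≤ X by linarith) (show 0 < ε / 4 by positivity)
    calc Real.log X ^ 4 ≤ (X ^ (ε / 4) / (ε / 4)) ^ 4 := pow_le_pow_left₀ hlog h5 4
      _ = (4 / ε) ^ 4 * (X ^ (ε / 4)) ^ 4 := by
          rw [div_pow]
          field_simp
      _ = (4 / ε) ^ 4 * X ^ ε := by
          rw [← Real.rpow_natCast (X ^ (ε / 4)) 4, ← Real.rpow_mul (by linarith)]
          congr 2
          push_cast
          ring
  have hX0 : 0 < X := by linarith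
  calc ∫ x in T..(2 * T), Z x ^ (4 : ℝ) ≤ 4 / 5 * (X * Real.log X ^ 4) := h1.trans h2
    _ ≤ 4 / 5 * (X * ((4 / ε) ^ 4 * X ^ ε)) := by gcongr
    _ = 4 / 5 * (4 / ε) ^ 4 * X ^ (1 + ε) := by
        rw [Real.rpow_add hX0, Real.rpow_one]
        ring
    _ ≤ 4 / 5 * (4 / ε) ^ 4 * (1000 * T) ^ (1 + ε) := by
        apply mul_le_mul_of_nonneg_left _ (by positivity)
        exact Real.rpow_le_rpow hX0.le hX3 (by linarith)
    _ = 4 / 5 * (4 / ε) ^ 4 * 1000 ^ (1 + ε) * T ^ (1 + ε) := by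
        rw [Real.mul_rpow (by norm_num) (by linarith)]
        ring

/-- the fourth moment of the local maxima -/
theorem max4 : ∃ u : ℕ → ℝ, Pool.Agent.X114.TM.IsMax u ∧ P u 4 1 := by
  obtain ⟨u, hu⟩ := exists_isMax
  refine ⟨u, hu, iter hu (by norm_num) le_rfl fun η hη => ?_⟩
  obtain ⟨r, y₀, hr0, hr8, hconf⟩ := conf_leb hη
  exact ⟨r, hr0, hr8, samp_int hu (by norm_num) (by norm_num) hr0 hr8 hη moment4 hconf⟩

/-- **the Lindelöf hypothesis around `α v_i`** -/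
theorem zeta_windows {v : ℕ → ℝ} {τ θ η : ℝ} (hpos : ∀ n, 1 ≤ v n) (hτ : 0 ≤ τ) (hv : ∀ t : ℝ, τ < t → Summable (fun i => v i ^ (-t)))
    (hθ0 : 0 ≤ θ) (hθ : θ < 1) (hη0 : 0 ≤ η) (hη : η ≤ 1 / 4) :
    ∃ E : Set ℝ, dimH E ≤ ENNReal.ofReal ((1 - 4 * η + τ) / (1 - θ)) ∧ ∀ α : ℝ, 0 < α → α ∉ E →
      ∃ i₀ : ℕ, ∀ i : ℕ, i₀ ≤ i → ∀ t : ℝ, |t - α * v i| ≤ v i ^ θ → 1 ≤ t → ‖riemannZeta (1 / 2 + t * Complex.I)‖ ≤ t ^ η := by
  obtain ⟨u, hu, hP⟩ := max4
  exact max_windows (fun t : ℝ => ‖riemannZeta (1 / 2 + t * Complex.I)‖) (fun m => Z (u m)) (fun m x hx => (hu m).2 x hx) (fun m => Z_nonneg _)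
    4 1 η (by norm_num) hη0 (by linarith) hP hpos hτ hv hθ0 hθ

/-- powers of sums -/
theorem sum_rpow_le (F : Finset ℕ) (a : ℕ → ℝ) (ha : ∀ n, 0 ≤ a n) {r : ℝ} (hr : 1 ≤ r) : ∑ n ∈ F, a n ^ r ≤ (∑ n ∈ F, a n) ^ r := by
  set S := ∑ n ∈ F, a n with hS
  have hS0 : 0 ≤ S := sum_nonneg fun n _ => ha n
  rcases hS0.eq_or_lt with h0 | h0
  · have h1 : ∀ n ∈ F, a n = 0 := (sum_eq_zero_iff_of_nonneg fun n _ => ha n).1 h0.symm
    have h2 : ∑ n ∈ F, a n ^ r = 0 := by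
      apply sum_eq_zero
      intro n hn
      rw [h1 n hn, Real.zero_rpow (by linarith)]
    rw [h2]
    positivity
  · calc ∑ n ∈ F, a n ^ r ≤ ∑ n ∈ F, a n * S ^ (r - 1) := by
          apply sum_le_sum
          intro n hn
          rcases (ha n).eq_or_lt with h1 | h1
          · rw [← h1, Real.zero_rpow (by linarith), zero_mul]
          · have h2 : a n ≤ S := single_le_sum (fun i _ => ha i) hn
            have h3 : a n ^ r = a n * a n ^ (r - 1) := by
              rw [← Real.rpow_one_add' h1.le (by linarith)]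
              congr 1
              ring
            rw [h3]
            exact mul_le_mul_of_nonneg_left (Real.rpow_le_rpow h1.le h2 (by linarith)) h1.le
      _ = S * S ^ (r - 1) := by rw [← sum_mul]
      _ = S ^ r := by
          rw [← Real.rpow_one_add' h0.le (by linarith)]
          congr 1
          ring

/-- **moments of zeta over the windows around `α v_i`** -/
theorem moment_windows {v : ℕ → ℝ} {τ θ q ε : ℝ} (hpos : ∀ n, 1 ≤ v n) (hτ : 0 ≤ τ) (hv : ∀ t : ℝ, τ < t → Summable (fun i => v i ^ (-t)))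
    (hθ0 : 0 ≤ θ) (hθ : θ < 1) (hq : 4 ≤ q) (hε : 0 ≤ ε) (hqε : 4 * (θ + ε) ≤ q) :
    ∃ E : Set ℝ, dimH E ≤ ENNReal.ofReal ((1 - 4 * (θ + ε) / q + τ) / (1 - θ)) ∧ ∀ α : ℝ, 0 < α → α ∉ E →
      ∃ i₀ : ℕ, ∀ i : ℕ, i₀ ≤ i → ∫ t in (α * v i - v i ^ θ)..(α * v i + v i ^ θ), ‖riemannZeta (1 / 2 + t * Complex.I)‖ ^ q ≤ v i ^ (θ + ε) := by
  obtain ⟨u, hu, hP⟩ := max4
  have hq0 : 0 < q := by linarith
  have ha : ∀ n, 0 ≤ Z (u n) ^ (4 : ℝ) := fun n => Real.rpow_nonneg (Z_nonneg _) _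
  obtain ⟨E, hE1, hE2⟩ := sum_windows (fun n => Z (u n) ^ (4 : ℝ)) ha 1 (4 * (θ + ε) / q) (by positivity)
    (by rw [sub_nonneg, div_le_one hq0]; exact hqε) hP hpos hτ hv hθ0 hθ
  refine ⟨E, hE1, fun α hα hαE => ?_⟩
  obtain ⟨i₀, hi₀⟩ := hE2 α hα hαE
  have htend := Pool.Agent.Y854.GM.tendsto_of_expLe (fun n => lt_of_lt_of_le one_pos (hpos n)) hτ (show Pool.Agent.Y854.GM.ExpLe v τ from hv)
  have h1θ : 0 < 1 - θ := by linarith
  obtain ⟨i₁, hi₁⟩ := Filter.eventually_atTop.1 (htend.eventually_ge_atTop ((1 / α) ^ (1 / (1 - θ))))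
  refine ⟨max i₀ i₁, fun i hi => ?_⟩
  have hvi := hpos i
  have hvi0 : 0 < v i := by linarith
  have hvθ : 1 ≤ v i ^ θ := Real.one_le_rpow hvi hθ0
  have hx0 : 0 ≤ α * v i - v i ^ θ := by
    have h1 := hi₁ i (le_trans (le_max_right _ _) hi)
    have h2 : 1 / α ≤ v i ^ (1 - θ) := by
      have h3 := Real.rpow_le_rpow (by positivity) h1 h1θ.le
      rwa [← Real.rpow_mul (by positivity), one_div (1 - θ), inv_mul_cancel₀ h1θ.ne', Real.rpow_one] at h3
    have h3 : v i ^ (1 - θ) * v i ^ θ = v i := by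
      rw [← Real.rpow_add hvi0]
      simp
    have h4 : 1 / α * v i ^ θ ≤ v i := by
      calc 1 / α * v i ^ θ ≤ v i ^ (1 - θ) * v i ^ θ := mul_le_mul_of_nonneg_right h2 (by positivity)
        _ = v i := h3
    rw [div_mul_eq_mul_div, one_mul, div_le_iff₀ hα] at h4
    linarith
  set x : ℝ := α * v i - v i ^ θ with hx
  set y : ℝ := α * v i + v i ^ θ with hy
  have hxy : x ≤ y := by rw [hx, hy]; linarith
  set a : ℕ := ⌊x⌋₊ with ha'
  set b : ℕ := ⌈y⌉₊ with hb'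
  have hax : (a : ℝ) ≤ x := Nat.floor_le hx0
  have hax2 : x < (a : ℝ) + 1 := Nat.lt_floor_add_one x
  have hyb : y ≤ b := Nat.le_ceil y
  have hyb2 : (b : ℝ) < y + 1 := Nat.ceil_lt_add_one (by linarith)
  have hab : a ≤ b := by
    have : (a : ℝ) ≤ b := by linarith
    exact_mod_cast this
  have hcont := Zq_cont hq0
  have h1 : ∫ t in x..y, ‖riemannZeta (1 / 2 + t * Complex.I)‖ ^ q ≤ ∫ t in (a : ℝ)..b, Z t ^ q := by
    show ∫ t in x..y, Z t ^ q ≤ ∫ t in (a : ℝ)..b, Z t ^ q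
    apply intervalIntegral.integral_mono_interval hax hxy hyb
    · exact Filter.Eventually.of_forall fun t => Zq_nonneg q t
    · exact hcont.intervalIntegrable _ _
  have h2 : ∫ t in (a : ℝ)..b, Z t ^ q ≤ ∑ n ∈ Ico a b, (Z (u n) ^ (4 : ℝ)) ^ (q / 4) := by
    rw [← gg_sum hq0 hab]
    apply sum_le_sum
    intro n _
    have h3 : gg q n ≤ ∫ _ in (n : ℝ)..(n + 1 : ℕ), Z (u n) ^ q := by
      apply intervalIntegral.integral_mono_on (by push_cast; linarith) (hcont.intervalIntegrable _ _) intervalIntegrable_const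
      intro t ht
      push_cast at ht
      apply Real.rpow_le_rpow (Z_nonneg _) _ hq0.le
      apply (hu n).2
      rw [abs_le]
      constructor <;> linarith [ht.1, ht.2]
    refine h3.trans (le_of_eq ?_)
    rw [intervalIntegral.integral_const, smul_eq_mul, ← Real.rpow_mul (Z_nonneg _)]
    push_cast
    have e : (4 : ℝ) * (q / 4) = q := by ring
    rw [e]
    ring
  have h3 := sum_rpow_le (Ico a b) (fun n => Z (u n) ^ (4 : ℝ)) ha (show 1 ≤ q / 4 by linarith)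
  have h4 := hi₀ i (le_trans (le_max_left _ _) hi) (Ico a b) (by
    intro n hn
    rw [mem_Ico] at hn
    have h5 : (a : ℝ) ≤ n := by exact_mod_cast hn.1
    have h6 : (n : ℝ) + 1 ≤ b := by exact_mod_cast hn.2
    rw [abs_le]
    constructor <;> linarith)
  have h5 : (∑ n ∈ Ico a b, Z (u n) ^ (4 : ℝ)) ^ (q / 4) ≤ (v i ^ (4 * (θ + ε) / q)) ^ (q / 4) :=
    Real.rpow_le_rpow (sum_nonneg fun n _ => ha n) h4 (by linarith)
  have h6 : (v i ^ (4 * (θ + ε) / q)) ^ (q / 4) = v i ^ (θ + ε) := by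
    rw [← Real.rpow_mul hvi0.le]
    congr 1
    field_simp
  rw [h6] at h5
  exact h1.trans (h2.trans (h3.trans h5))

end Pool.Agent.X35.ZW
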